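import Mathlib

/-!
# There is no box theorem for product sets in non-commutative groups

Let `G` be the group of the triples `(x, y, z)` of vectors of `(ℤ/2)^m` with the product
`(x, y, z) (x', y', z') = (x + x', y + y', z + z' + y x')` (coordinatewise product `y x'`; this is
the `m`-th power of the dihedral group of order `8`). Take `S₀ = {(x, 0, 0)}`,
`S₁ = {(0, e_i, 0)}`, `S₂ = {(e_j, 0, 0)}`, `S₃ = {(0, y, 0)}`. The product of
`(x, 0, 0), (0, e_i, 0), (e_j, 0, 0), (0, y, 0)` is `(x + e_j, y + e_i, e_i e_j)`, where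
`e_i e_j = 0` for `i ≠ j`. So `|S₀S₁S₂S₃| = (m + 1) 4 ^ m`, whereas
`N_{012}, N_{123} ≤ 2 m 2 ^ m` and `N_{013}, N_{023} ≤ 2 4 ^ m`.
-/

set_option autoImplicit false

namespace Pool.Agent.Results.MP_c59173_co.NoBoxTheorem

open Finset

/-- The product set `S₀ ⋆ S₁ ⋆ ⋯ ⋆ S_{n-1}`, in this order. -/
def prodSet {G : Type*} [Group G] [DecidableEq G] {n : ℕ} (S : Fin n → Finset G) : Finset G :=
  (Fintype.piFinset S).image fun s => (List.ofFn s).prod

/-- `N_A`: the largest size of a product set in which `S i` is kept for `i ∈ A` and is replaced by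
a one-element subset `{x i}` of `S i` for `i ∉ A`. -/
def bigN {G : Type*} [Group G] [DecidableEq G] {n : ℕ} (S : Fin n → Finset G)
    (A : Finset (Fin n)) : ℕ :=
  (Fintype.piFinset S).sup fun x => (prodSet fun i => if i ∈ A then S i else {x i}).card

/-- Triples of vectors of `(ℤ/2)^m`. -/
@[ext]
structure Tri (m : ℕ) where
  /-- first component -/
  x : Fin m → ZMod 2
  /-- second component -/
  y : Fin m → ZMod 2
  /-- third component -/
  z : Fin m → ZMod 2

namespace Tri

variable {m : ℕ}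

noncomputable instance : DecidableEq (Tri m) := Classical.decEq _

instance : Mul (Tri m) := ⟨fun a b => ⟨a.x + b.x, a.y + b.y, a.z + b.z + a.y * b.x⟩⟩
instance : One (Tri m) := ⟨⟨0, 0, 0⟩⟩
instance : Inv (Tri m) := ⟨fun a => ⟨-a.x, -a.y, -a.z + a.y * a.x⟩⟩

theorem mul_def (a b : Tri m) : a * b = ⟨a.x + b.x, a.y + b.y, a.z + b.z + a.y * b.x⟩ := rfl
theorem one_def : (1 : Tri m) = ⟨0, 0, 0⟩ := rfl
theorem inv_def (a : Tri m) : a⁻¹ = ⟨-a.x, -a.y, -a.z + a.y * a.x⟩ := rfl

instance : Group (Tri m) :=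
  Group.ofLeftAxioms
    (by
      intro a b c
      simp only [mul_def]
      refine Tri.ext ?_ ?_ ?_ <;> (funext i; simp; ring))
    (by
      intro a
      simp only [mul_def, one_def]
      refine Tri.ext ?_ ?_ ?_ <;> (funext i; simp))
    (by
      intro a
      simp only [mul_def, one_def, inv_def]
      refine Tri.ext ?_ ?_ ?_ <;> (funext i; simp [CharTwo.add_self_eq_zero]))

/-- the triples are a product type -/
def equivProd : Tri m ≃ (Fin m → ZMod 2) × (Fin m → ZMod 2) × (Fin m → ZMod 2) where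
  toFun a := (a.x, a.y, a.z)
  invFun p := ⟨p.1, p.2.1, p.2.2⟩
  left_inv _ := rfl
  right_inv _ := rfl

noncomputable instance : Fintype (Tri m) := Fintype.ofEquiv _ equivProd.symm

/-- `(x, 0, 0)` -/
def X (x : Fin m → ZMod 2) : Tri m := ⟨x, 0, 0⟩
/-- `(0, y, 0)` -/
def Y (y : Fin m → ZMod 2) : Tri m := ⟨0, y, 0⟩
/-- the unit vector -/
def e (i : Fin m) : Fin m → ZMod 2 := Pi.single i 1

theorem ee (i j : Fin m) : e i * e j = if i = j then e i else 0 := by
  funext l
  by_cases h : i = j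
  · subst h
    by_cases hl : l = i
    · subst hl; simp [e]
    · simp [e, hl]
  · simp only [h, if_false, e, Pi.mul_apply, Pi.single_apply, Pi.zero_apply]
    by_cases hl : l = i
    · subst hl; simp [h]
    · simp [hl]

theorem prod4 (x y : Fin m → ZMod 2) (i j : Fin m) :
    X x * (Y (e i) * (X (e j) * (Y y * 1))) = ⟨x + e j, y + e i, e i * e j⟩ := by
  simp only [mul_def, one_def, X, Y]
  refine Tri.ext ?_ ?_ ?_
  · funext l; simp
  · funext l; simp [add_comm]
  · funext l; simp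

end Tri

open Tri

/-- The four sets. -/
noncomputable def S (m : ℕ) : Fin 4 → Finset (Tri m) :=
  ![univ.image X, univ.image fun i => Y (e i), univ.image fun j => X (e j), univ.image Y]

theorem mem_prodSet {G : Type*} [Group G] [DecidableEq G] (T : Fin 4 → Finset G) (g : G) :
    g ∈ prodSet T ↔ ∃ a ∈ T 0, ∃ b ∈ T 1, ∃ c ∈ T 2, ∃ d ∈ T 3, a * (b * (c * (d * 1))) = g := by
  simp only [prodSet, Finset.mem_image, Fintype.mem_piFinset]
  constructor
  · rintro ⟨s, hs, rfl⟩
    refine ⟨s 0, hs 0, s 1, hs 1, s 2, hs 2, s 3, hs 3, ?_⟩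
    simp [List.ofFn_succ]
  · rintro ⟨a, ha, b, hb, c, hc, d, hd, rfl⟩
    refine ⟨![a, b, c, d], ?_, ?_⟩
    · intro i
      fin_cases i
      · exact ha
      · exact hb
      · exact hc
      · exact hd
    · simp [List.ofFn_succ]

variable {m : ℕ}

theorem S_nonempty [NeZero m] (i : Fin 4) : (S m i).Nonempty := by
  fin_cases i <;> simp [S, Finset.univ_nonempty]

theorem card_vec : Fintype.card (Fin m → ZMod 2) = 2 ^ m := by simp

/-- lower bound for the whole product set -/
theorem lower (hm : 2 ≤ m) : (m + 1) * (2 ^ m * 2 ^ m) ≤ (prodSet (S m)).card := by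
  classical
  let F : (Fin m → ZMod 2) × (Fin m → ZMod 2) × Option (Fin m) → Tri m :=
    fun p => ⟨p.1, p.2.1, p.2.2.elim 0 e⟩
  have hinj : Function.Injective F := by
    rintro ⟨x, y, o⟩ ⟨x', y', o'⟩ h
    have h1 : x = x' := congrArg Tri.x h
    have h2 : y = y' := congrArg Tri.y h
    have h3 : (o.elim 0 e : Fin m → ZMod 2) = o'.elim 0 e := congrArg Tri.z h
    subst h1 h2
    have : o = o' := by
      rcases o with _ | i <;> rcases o' with _ | j
      · rfl
      · have := congrFun h3 j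
        simp [e] at this
      · have := congrFun h3 i
        simp [e] at this
      · have := congrFun h3 i
        simp only [Option.elim_some, e, Pi.single_apply] at this
        by_cases hij : i = j
        · rw [hij]
        · simp [hij] at this
    rw [this]
  have hsub : univ.image F ⊆ prodSet (S m) := by
    intro g hg
    obtain ⟨⟨x, y, o⟩, -, rfl⟩ := Finset.mem_image.1 hg
    rw [mem_prodSet]
    obtain ⟨i, j, hij⟩ : ∃ i j : Fin m, e i * e j = (o.elim 0 e : Fin m → ZMod 2) := by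
      rcases o with _ | i
      · refine ⟨⟨0, by omega⟩, ⟨1, by omega⟩, ?_⟩
        rw [ee, if_neg (by simp)]
        rfl
      · exact ⟨i, i, by rw [ee, if_pos rfl]; rfl⟩
    refine ⟨X (x - e j), ?_, Y (e i), ?_, X (e j), ?_, Y (y - e i), ?_, ?_⟩
    · simp [S]
    · simp [S]
    · simp [S]
    · simp [S]
    · rw [prod4, hij]
      simp [F]
  calc (m + 1) * (2 ^ m * 2 ^ m) = (univ.image F).card := by
        rw [Finset.card_image_of_injective _ hinj, Finset.card_univ]
        simp only [Fintype.card_prod, card_vec, Fintype.card_option, Fintype.card_fin]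
        ring
    _ ≤ _ := Finset.card_le_card hsub

theorem bound_of_sub {T : Fin 4 → Finset (Tri m)} {α : Type*} [Fintype α] (F : α → Tri m)
    (h : ∀ a ∈ T 0, ∀ b ∈ T 1, ∀ c ∈ T 2, ∀ d ∈ T 3, ∃ p, F p = a * (b * (c * (d * 1)))) :
    (prodSet T).card ≤ Fintype.card α := by
  classical
  have hsub : prodSet T ⊆ univ.image F := by
    intro g hg
    rw [mem_prodSet] at hg
    obtain ⟨a, ha, b, hb, c, hc, d, hd, rfl⟩ := hg
    obtain ⟨p, hp⟩ := h a ha b hb c hc d hd
    exact Finset.mem_image.2 ⟨p, Finset.mem_univ _, hp⟩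
  exact (Finset.card_le_card hsub).trans Finset.card_image_le

theorem N3 : bigN (S m) {3}ᶜ ≤ 2 * m * 2 ^ m := by
  refine Finset.sup_le fun x hx => ?_
  rw [Fintype.mem_piFinset] at hx
  have h3 := hx 3
  simp only [S, Matrix.cons_val, Finset.mem_image, Finset.mem_univ, true_and] at h3
  obtain ⟨y, hy⟩ := h3
  refine (bound_of_sub (α := (Fin m → ZMod 2) × Fin m × Bool)
    (fun p => ⟨p.1, y + e p.2.1, if p.2.2 then e p.2.1 else 0⟩) ?_).trans ?_
  · intro a ha b hb c hc d hd
    simp only [Finset.mem_compl, Finset.mem_singleton, S] at ha hb hc hd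
    simp [hy.symm] at ha hb hc hd
    obtain ⟨x, rfl⟩ := ha
    obtain ⟨i, rfl⟩ := hb
    obtain ⟨j, rfl⟩ := hc
    subst hd
    refine ⟨(x + e j, i, decide (i = j)), ?_⟩
    rw [prod4, ee]
    simp
  · simp only [Fintype.card_prod, card_vec, Fintype.card_fin, Fintype.card_bool]
    exact le_of_eq (by ring)

theorem N0 : bigN (S m) {0}ᶜ ≤ 2 * m * 2 ^ m := by
  refine Finset.sup_le fun x hx => ?_
  rw [Fintype.mem_piFinset] at hx
  have h0 := hx 0
  simp only [S, Matrix.cons_val, Finset.mem_image, Finset.mem_univ, true_and] at h0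
  obtain ⟨x0, hx0⟩ := h0
  refine (bound_of_sub (α := (Fin m → ZMod 2) × Fin m × Bool)
    (fun p => ⟨x0 + e p.2.1, p.1, if p.2.2 then e p.2.1 else 0⟩) ?_).trans ?_
  · intro a ha b hb c hc d hd
    simp only [Finset.mem_compl, Finset.mem_singleton, S] at ha hb hc hd
    simp [hx0.symm] at ha hb hc hd
    obtain ⟨i, rfl⟩ := hb
    obtain ⟨j, rfl⟩ := hc
    obtain ⟨y, rfl⟩ := hd
    subst ha
    refine ⟨(y + e i, j, decide (i = j)), ?_⟩
    rw [prod4, ee]
    by_cases h : i = j
    · subst h; simp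
    · simp [h]
  · simp only [Fintype.card_prod, card_vec, Fintype.card_fin, Fintype.card_bool]
    exact le_of_eq (by ring)

theorem N1 : bigN (S m) {1}ᶜ ≤ 2 * (2 ^ m * 2 ^ m) := by
  refine Finset.sup_le fun x hx => ?_
  rw [Fintype.mem_piFinset] at hx
  have h1 := hx 1
  simp only [S, Matrix.cons_val, Finset.mem_image, Finset.mem_univ, true_and] at h1
  obtain ⟨i, hi⟩ := h1
  refine (bound_of_sub (α := (Fin m → ZMod 2) × (Fin m → ZMod 2) × Bool)
    (fun p => ⟨p.1, p.2.1, if p.2.2 then e i else 0⟩) ?_).trans ?_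
  · intro a ha b hb c hc d hd
    simp only [Finset.mem_compl, Finset.mem_singleton, S] at ha hb hc hd
    simp [hi.symm] at ha hb hc hd
    obtain ⟨x, rfl⟩ := ha
    obtain ⟨j, rfl⟩ := hc
    obtain ⟨y, rfl⟩ := hd
    subst hb
    refine ⟨(x + e j, y + e i, decide (i = j)), ?_⟩
    rw [prod4, ee]
    simp
  · simp only [Fintype.card_prod, card_vec, Fintype.card_bool]
    exact le_of_eq (by ring)

theorem N2 : bigN (S m) {2}ᶜ ≤ 2 * (2 ^ m * 2 ^ m) := by
  refine Finset.sup_le fun x hx => ?_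
  rw [Fintype.mem_piFinset] at hx
  have h2 := hx 2
  simp only [S, Matrix.cons_val, Finset.mem_image, Finset.mem_univ, true_and] at h2
  obtain ⟨j, hj⟩ := h2
  refine (bound_of_sub (α := (Fin m → ZMod 2) × (Fin m → ZMod 2) × Bool)
    (fun p => ⟨p.1, p.2.1, if p.2.2 then e j else 0⟩) ?_).trans ?_
  · intro a ha b hb c hc d hd
    simp only [Finset.mem_compl, Finset.mem_singleton, S] at ha hb hc hd
    simp [hj.symm] at ha hb hc hd
    obtain ⟨x, rfl⟩ := ha
    obtain ⟨i, rfl⟩ := hb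
    obtain ⟨y, rfl⟩ := hd
    subst hc
    refine ⟨(x + e j, y + e i, decide (i = j)), ?_⟩
    rw [prod4, ee]
    by_cases h : i = j
    · subst h; simp
    · simp [h]
  · simp only [Fintype.card_prod, card_vec, Fintype.card_bool]
    exact le_of_eq (by ring)

/-- **Q1 is false.** For every `C` there are a finite group `G` and four nonempty subsets
`S 0, …, S 3` of `G` with `|S₀S₁S₂S₃| ^ 3 > C ∏ i, N_{[4] ∖ {i}}`, and (already for this reason)
there are no positive reals `λ_i` with product `|S₀S₁S₂S₃|` and `∏ i ∈ A, λ_i ≤ N_A` for each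
`A`. -/
theorem result (C : ℕ) : ∃ (G : Type) (_ : Group G) (_ : Fintype G) (_ : DecidableEq G)
    (S : Fin 4 → Finset G), (∀ i, (S i).Nonempty) ∧
      C * ∏ i, bigN S {i}ᶜ < (prodSet S).card ^ 3 ∧
      ∀ lam : Fin 4 → ℝ, (∀ i, 0 < lam i) → ∏ i, lam i = (prodSet S).card →
        ∃ A : Finset (Fin 4), (bigN S A : ℝ) < ∏ i ∈ A, lam i := by
  classical
  obtain ⟨m, hm2, hmC⟩ : ∃ m : ℕ, 2 ≤ m ∧ 16 * (C + 1) ≤ m := ⟨16 * (C + 1), by omega, le_rfl⟩
  have : NeZero m := ⟨by omega⟩
  set D : ℕ := 2 ^ m with hD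
  have hDpos : 0 < D := by positivity
  -- the product of the four numbers
  have hN : ∏ i, bigN (S m) {i}ᶜ ≤ (2 * m * D) * (2 * (D * D)) * (2 * (D * D)) * (2 * m * D) := by
    rw [Fin.prod_univ_four]
    exact Nat.mul_le_mul (Nat.mul_le_mul (Nat.mul_le_mul N0 N1) N2) N3
  have hkey : (C + 1) * ∏ i, bigN (S m) {i}ᶜ < (prodSet (S m)).card ^ 3 := by
    have h1 : ((m + 1) * (D * D)) ^ 3 ≤ (prodSet (S m)).card ^ 3 :=
      Nat.pow_le_pow_left (lower hm2) 3
    have h2 : (C + 1) * ∏ i, bigN (S m) {i}ᶜ ≤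
        (C + 1) * ((2 * m * D) * (2 * (D * D)) * (2 * (D * D)) * (2 * m * D)) :=
      Nat.mul_le_mul_left _ hN
    refine lt_of_le_of_lt h2 (lt_of_lt_of_le ?_ h1)
    have e1 : (C + 1) * ((2 * m * D) * (2 * (D * D)) * (2 * (D * D)) * (2 * m * D)) =
        (16 * (C + 1) * m ^ 2) * D ^ 6 := by ring
    have e2 : ((m + 1) * (D * D)) ^ 3 = (m + 1) ^ 3 * D ^ 6 := by ring
    rw [e1, e2]
    refine Nat.mul_lt_mul_of_pos_right ?_ (by positivity)
    calc 16 * (C + 1) * m ^ 2 ≤ m * m ^ 2 := Nat.mul_le_mul_right _ hmC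
      _ = m ^ 3 := by ring
      _ < (m + 1) ^ 3 := Nat.pow_lt_pow_left (by omega) (by norm_num)
  refine ⟨Tri m, inferInstance, inferInstance, inferInstance, S m, S_nonempty, ?_, ?_⟩
  · exact lt_of_le_of_lt (Nat.mul_le_mul_right _ (by omega)) hkey
  · intro lam hpos hprod
    by_contra hcon
    push Not at hcon
    have h4 : ∀ i, ∏ j ∈ ({i}ᶜ : Finset (Fin 4)), lam j ≤ bigN (S m) {i}ᶜ := fun i => hcon _
    have hmul : ∏ i, ∏ j ∈ ({i}ᶜ : Finset (Fin 4)), lam j ≤ ∏ i, (bigN (S m) {i}ᶜ : ℝ) := by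
      refine Finset.prod_le_prod (fun i _ => ?_) fun i _ => h4 i
      exact Finset.prod_nonneg fun j _ => (hpos j).le
    have hlhs : ∏ i, ∏ j ∈ ({i}ᶜ : Finset (Fin 4)), lam j = (∏ i, lam i) ^ 3 := by
      have c0 : ({0}ᶜ : Finset (Fin 4)) = {1, 2, 3} := by decide
      have c1 : ({1}ᶜ : Finset (Fin 4)) = {0, 2, 3} := by decide
      have c2 : ({2}ᶜ : Finset (Fin 4)) = {0, 1, 3} := by decide
      have c3 : ({3}ᶜ : Finset (Fin 4)) = {0, 1, 2} := by decide
      rw [Fin.prod_univ_four, Fin.prod_univ_four, c0, c1, c2, c3]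
      rw [Finset.prod_insert (by decide), Finset.prod_insert (by decide), Finset.prod_singleton,
        Finset.prod_insert (by decide), Finset.prod_insert (by decide), Finset.prod_singleton,
        Finset.prod_insert (by decide), Finset.prod_insert (by decide), Finset.prod_singleton,
        Finset.prod_insert (by decide), Finset.prod_insert (by decide), Finset.prod_singleton]
      ring
    rw [hlhs, hprod] at hmul
    have hk' : ((∏ i, bigN (S m) {i}ᶜ : ℕ) : ℝ) < ((prodSet (S m)).card : ℝ) ^ 3 := by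
      have : ∏ i, bigN (S m) {i}ᶜ < (prodSet (S m)).card ^ 3 :=
        lt_of_le_of_lt (Nat.le_mul_of_pos_left _ (by omega)) hkey
      exact_mod_cast this
    rw [Nat.cast_prod] at hk'
    exact absurd hk' (not_lt.2 hmul)

end Pool.Agent.Results.MP_c59173_co.NoBoxTheorem
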